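import Pool.Agent.NL.StmtsB

/-!
# Squad NLO, row NRV: finitely many almost norming coordinates
-/

set_option autoImplicit false

open MeasureTheory Filter Topology

noncomputable section

namespace Pool.Agent.NL.H44

open Pool.Agent.NL

theorem nrv (hnrm : NrmStmt) : NrvStmt := by
  intro X _ _ G Ψ T E _ ε hε
  have h1 : FiniteDimensional ℝ (Submodule.span ℝ (G '' (T : Set ℝ))) :=
    FiniteDimensional.span_of_finite ℝ (T.finite_toSet.image G)
  obtain ⟨Φ, hΦ⟩ := hnrm (Submodule.span ℝ (G '' (T : Set ℝ)) ⊔ E.map Ψ.toLinearMap) ε hε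
  refine ⟨Φ, fun b hb y hy => hΦ _ ?_⟩
  refine Submodule.sub_mem _ (Submodule.mem_sup_left ?_) (Submodule.mem_sup_right ⟨y, hy, rfl⟩)
  unfold V
  rw [Finsupp.linearCombination_apply, Finsupp.sum]
  refine Submodule.sum_mem _ fun x hx => Submodule.smul_mem _ _ (Submodule.subset_span ?_)
  exact ⟨x, Finset.mem_coe.2 (hb hx), rfl⟩

end Pool.Agent.NL.H44
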